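import Pool.Agent.H53.Lib.R_seed8.W515.FB.Stm
import Pool.Agent.H53.Lib.R_seed8.Helper259.Selmer.Gal

/-! # Project FB: the Galois group of the Selmer polynomials -/

set_option autoImplicit false

namespace Pool.Agent.W85.FB

open Polynomial NumberField Pool.Agent.Helper259.Selmer

/-- The Galois group of a number field is generated by the inertia groups. -/
theorem iSup_inertia (L : Type) [Field L] [NumberField L] [IsGalois ℚ L] :
    ⨆ m : MaximalSpectrum (𝓞 L), m.asIdeal.inertia Gal(L/ℚ) = ⊤ := by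
  set H : Subgroup Gal(L/ℚ) := ⨆ m : MaximalSpectrum (𝓞 L), m.asIdeal.inertia Gal(L/ℚ) with hH
  by_contra hne
  let K' : IntermediateField ℚ L := FixedPoints.intermediateField H
  have hK : Module.finrank ℚ K' ≠ 1 := by
    intro h1
    apply hne
    have h2 : Module.finrank K' L = Nat.card H :=
      IsGaloisGroup.finrank_fixedPoints_eq_card_subgroup Gal(L/ℚ) ℚ L H
    have h3 := Module.finrank_mul_finrank ℚ K' L
    rw [h1, one_mul, h2, ← IsGalois.card_aut_eq_finrank] at h3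
    exact Subgroup.eq_top_of_card_eq H h3
  have : IsGaloisGroup H K' L := IsGaloisGroup.subgroup Gal(L/ℚ) ℚ L H
  have : IsGaloisGroup H (𝓞 K') (𝓞 L) := IsGaloisGroup.of_isFractionRing H (𝓞 K') (𝓞 L) K' L
  obtain ⟨P', hP', hPr⟩ := NumberField.exists_not_isUnramifiedAt_int (K := K') (𝒪 := 𝓞 K') hK
  obtain ⟨P, hP, hlies⟩ : ∃ P : Ideal (𝓞 L), P.IsMaximal ∧ P.LiesOver P' :=
    Ideal.exists_maximal_ideal_liesOver_of_isIntegral P'
  have hle : P.inertia Gal(L/ℚ) ≤ H :=
    le_iSup (fun m : MaximalSpectrum (𝓞 L) => m.asIdeal.inertia Gal(L/ℚ)) ⟨P, hP⟩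
  have h1 : Nat.card (P.inertia Gal(L/ℚ)) = P.ramificationIdx ℤ := by
    rw [Ideal.card_inertia_eq_ramificationIdxIn (P.under ℤ) P,
      Ideal.ramificationIdxIn_eq_ramificationIdx (P.under ℤ) P (Gal(L/ℚ))]
  have h2 : Nat.card (P.inertia H) = P.ramificationIdx (𝓞 K') := by
    rw [Ideal.card_inertia_eq_ramificationIdxIn P' P,
      Ideal.ramificationIdxIn_eq_ramificationIdx P' P H]
  have h3 : Nat.card (P.inertia H) = Nat.card (P.inertia Gal(L/ℚ)) := by
    change Nat.card ((P.inertia Gal(L/ℚ)).subgroupOf H) = _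
    exact Nat.card_congr (Subgroup.subgroupOfEquivOfLe hle).toEquiv
  have h4 := Ideal.ramificationIdx_tower (R := ℤ) P' P
  apply hPr
  rw [← Ideal.ramificationIdx_eq_one_iff]
  have h5 : 0 < Nat.card (P.inertia Gal(L/ℚ)) := Nat.card_pos
  rw [← h1, ← h3, h2] at h4
  rw [← h3, h2] at h5
  exact Nat.eq_of_mul_eq_mul_right h5 (by rw [one_mul]; exact h4.symm)

/-- The Galois group acts on the roots as the full symmetric group. -/
theorem surj (L : Type) [Field L] [NumberField L] [IsGalois ℚ L] {n : ℕ} (hn : 2 ≤ n)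
    (hs : IsSplittingField ℚ L (X ^ n - X - 1 : ℚ[X])) :
    Function.Surjective (MulAction.toPermHom (Gal(L/ℚ)) ((F n).rootSet (𝓞 L))) := by
  classical
  have hF : (F n).map (algebraMap ℤ L) = (X ^ n - X - 1 : ℚ[X]).map (algebraMap ℚ L) := by
    rw [F_map]; simp
  have hsF : ((F n).map (algebraMap ℤ L)).Splits := by rw [hF]; exact hs.splits
  have hsI := splits_int hn hsF
  have hcard := card_rootSet_int hn hsF
  have hcol : ∀ m : MaximalSpectrum (𝓞 L),
      ((F n).rootSet (𝓞 L)).ncard ≤ ((F n).rootSet (𝓞 L ⧸ m.asIdeal)).ncard + 1 := by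
    rintro ⟨P, hP⟩
    let _ := Ideal.Quotient.field P
    have h1 : ((F n).map (algebraMap ℤ (𝓞 L ⧸ P))).Splits := by
      have := hsI.map (Ideal.Quotient.mk P)
      rw [Polynomial.map_map] at this
      convert this using 2
      exact RingHom.ext_int _ _
    have h2 := ncard_field hn h1
    have h3 : ((F n).rootSet (𝓞 L)).ncard = n := by
      rw [Set.ncard_eq_toFinset_card', Set.toFinset_card, hcard]
    rw [h3]
    exact h2
  have htr : MulAction.IsPretransitive (Gal(L/ℚ)) ((F n).rootSet (𝓞 L)) := by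
    refine ⟨fun x y => ?_⟩
    have hx : ∀ z : (F n).rootSet (𝓞 L), aeval ((z : 𝓞 L) : L) (X ^ n - X - 1 : ℚ[X]) = 0 := by
      intro z
      have h1 := (mem_rootSet'.mp z.2).2
      have h2 := congrArg (algebraMap (𝓞 L) L) h1
      rw [← aeval_algebraMap_apply, map_zero] at h2
      simpa [F] using h2
    have hmin : ∀ z : (F n).rootSet (𝓞 L), minpoly ℚ ((z : 𝓞 L) : L) = X ^ n - X - 1 := fun z =>
      (minpoly.eq_of_irreducible_of_monic (X_pow_sub_X_sub_one_irreducible_rat (by omega)) (hx z)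
        (monic_aux hn)).symm
    obtain ⟨σ, hσ⟩ := minpoly.exists_algEquiv_of_root (K := ℚ) (L := L) (x := ((x : 𝓞 L) : L))
      (y := ((y : 𝓞 L) : L)) (Algebra.IsAlgebraic.isAlgebraic _) (by
        rw [hmin]
        exact hx x)
    refine ⟨σ, Subtype.ext (FaithfulSMul.algebraMap_injective (𝓞 L) L ?_)⟩
    exact hσ
  exact hsI.surjective_toPermHom_of_iSup_inertia_eq_top hcol (iSup_inertia L)

theorem gal_aux (L : Type) [Field L] [CharZero L] [inst : Algebra ℚ L] {n : ℕ} (hn : 2 ≤ n)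
    (hs : IsSplittingField ℚ L (X ^ n - X - 1 : ℚ[X]))
    (π : Equiv.Perm ((X ^ n - X - 1 : ℚ[X]).rootSet L)) :
    ∃ τ : L ≃ₐ[ℚ] L, ∀ x : (X ^ n - X - 1 : ℚ[X]).rootSet L, τ x.1 = (π x).1 := by
  obtain rfl : inst = DivisionRing.toRatAlgebra := Subsingleton.elim _ _
  have hfd : FiniteDimensional ℚ L := IsSplittingField.finiteDimensional L (X ^ n - X - 1 : ℚ[X])
  have hnf : NumberField L := { to_charZero := inferInstance, to_finiteDimensional := hfd }
  have hsep : (X ^ n - X - 1 : ℚ[X]).Separable :=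
    (X_pow_sub_X_sub_one_irreducible_rat (by omega)).separable
  have hgal : IsGalois ℚ L := IsGalois.of_separable_splitting_field hsep
  have hmem : ∀ x : L, x ∈ (X ^ n - X - 1 : ℚ[X]).rootSet L ↔ x ^ n - x - 1 = 0 := by
    intro x
    rw [mem_rootSet_of_ne (monic_aux hn).ne_zero]
    simp
  have hmem' : ∀ x : 𝓞 L, x ∈ (F n).rootSet (𝓞 L) ↔ x ^ n - x - 1 = 0 := by
    intro x
    rw [mem_rootSet_of_ne (F_monic hn).ne_zero]
    simp [F]
  have hint : ∀ x : (X ^ n - X - 1 : ℚ[X]).rootSet L, IsIntegral ℤ x.1 := by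
    rintro ⟨x, hx⟩
    refine ⟨F n, F_monic hn, ?_⟩
    rw [hmem] at hx
    simpa [F] using hx
  have hmem2 : ∀ x : 𝓞 L, x ∈ (F n).rootSet (𝓞 L) ↔
      (x : L) ∈ (X ^ n - X - 1 : ℚ[X]).rootSet L := by
    intro x
    rw [hmem, hmem']
    constructor
    · intro h
      have h1 := congrArg (algebraMap (𝓞 L) L) h
      rwa [map_sub, map_sub, map_pow, map_one, map_zero] at h1
    · intro h
      apply FaithfulSMul.algebraMap_injective (𝓞 L) L
      rw [map_sub, map_sub, map_pow, map_one, map_zero]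
      exact h
  let e : (X ^ n - X - 1 : ℚ[X]).rootSet L ≃ (F n).rootSet (𝓞 L) :=
    { toFun := fun x => ⟨⟨x.1, hint x⟩, (hmem2 _).2 x.2⟩
      invFun := fun x => ⟨((x : 𝓞 L) : L), (hmem2 _).1 x.2⟩
      left_inv := fun x => rfl
      right_inv := fun x => rfl }
  obtain ⟨τ, hτ⟩ := surj L hn hs (e.permCongr π)
  refine ⟨τ, fun x => ?_⟩
  have h1 := congrArg (fun ρ : Equiv.Perm ((F n).rootSet (𝓞 L)) =>
    (((ρ (e x)) : 𝓞 L) : L)) hτ
  have h2 : e.permCongr π (e x) = e (π x) := by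
    rw [Equiv.permCongr_apply, Equiv.symm_apply_apply]
  simp only [h2] at h1
  exact h1

theorem gal : Pool.Agent.W515.FB.S_GAL := by
  intro n hn π
  refine gal_aux _ hn ?_ π
  convert IsSplittingField.splittingField (X ^ n - X - 1 : ℚ[X])
  exact Subsingleton.elim _ _

end Pool.Agent.W85.FB
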